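import Pool.Agent.H290Z.Dim3.Group

set_option autoImplicit false

namespace Pool.Agent.Results.MP_89b4f4_co.AUniversal

/-- `X` belongs to `k`-DIM: it is the comparability graph of a partial order on its vertex set
which is the intersection of `k` linear orders. -/
def IsDimLE (k : ℕ) {α : Type} (X : SimpleGraph α) : Prop :=
  ∃ (P : PartialOrder α) (L : Fin k → LinearOrder α),
    (∀ u v, X.Adj u v ↔ P.lt u v ∨ P.lt v u) ∧ ∀ u v, P.le u v ↔ ∀ i, (L i).le u v

/-- **The class 3-DIM is universal**: every finite group is the automorphism group of a finite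
comparability graph of dimension at most three. -/
theorem result (G : Type) [Group G] [Finite G] :
    ∃ (α : Type) (_ : Finite α) (X : SimpleGraph α), IsDimLE 3 X ∧ Nonempty (G ≃* (X ≃g X)) := by
  obtain ⟨α, hα, X, P, L, h1, h2, h3⟩ := Pool.Agent.H290Z.Dim3.main G
  exact ⟨α, hα, X, ⟨P, L, h1, h2⟩, h3⟩

end Pool.Agent.Results.MP_89b4f4_co.AUniversal
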